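import Pool.Agent.X331.PG.AngC

/-! Inscribed squares in Jordan curves: conditions on one family of chords (no regularity). -/

set_option autoImplicit false

namespace Pool.Agent.Results.MP_5a3ebe_gt.ChordFamilies

open Complex

/-- The curve `c` contains the four vertices of a square. -/
def HasSquare (c : ℝ → ℂ) : Prop :=
  ∃ z w : ℂ, w ≠ 0 ∧ z ∈ Set.range c ∧ z + w ∈ Set.range c ∧
    z + w + Complex.I * w ∈ Set.range c ∧ z + Complex.I * w ∈ Set.range c

/-- `X` cannot be the squared distance from the centre of a point in the position `σ` (`1` inside,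
`-1` outside, `0` on the curve), if `m` and `M` bound the distances of the points of the curve from
the centre. -/
def Excluded (m M : ℝ) (σ : SignType) (X : ℝ) : Prop :=
  (σ = 1 → M ^ 2 ≤ X) ∧ (σ = -1 → X ≤ m ^ 2) ∧ (σ = 0 → X < m ^ 2 ∨ M ^ 2 < X)

/-- Let `C` be a Jordan curve parametrised by `c : ℝ → ℂ` of period `1`; no regularity is assumed.
A chord is a pair `A = c x`, `B = c y`, `x < y < x + 1`; `D = A + i(B - A)` and `E = B + i(B - A)`
are the other two vertices of the square on its left. The chords of a family are those with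
`G (x, y) = 0`, where the continuous function `G` is invariant under `(x, y) ↦ (x + 1, y + 1)`,
negative for `y = x` and positive for `y = x + 1` (for instance `G (x, y) = y - x - a` for the
chords of the arcs of parameter length `a`, `0 < a < 1`).

1. If there is a family such that for none of its chords both `D` and `E` are in the interior of the
   convex hull of `C`, then `C` contains the vertices of a square.
2. If `C` is rectifiable (`Λ` is a Lipschitz constant of `c`, for the parametrisation proportional to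
   the arc length this is the length of `C`) and there is a family all of whose chords have length at
   least `Λ / 4`, then `C` contains the vertices of a square; in particular this holds if for some
   `a` with `0 < a < 1` all chords of the arcs of parameter length `a` have length at least `Λ / 4`.
3. If any two points `A`, `B` of `C` which divide `C` into two arcs of equal diameter `d` satisfy
   `d ≤ √2 |A - B|`, then `C` contains the vertices of a square.
4. Let `O` be a point around which `C` winds once, `c t = O + r t * exp (i φ t)` with `r t > 0` and a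
   continuous angle `φ` with `φ (t + 1) = φ t + 2 π`, and let `0 ≤ m ≤ r t ≤ M`. Consider the chords
   with the central angle `θ = Θ (x, y)`, a constant `θ` with `0 < θ < 2 π` or a continuous function.
   For these chords `|D - O|² = 2 a² + b² - 2 a b (cos θ + sin θ)` and
   `|E - O|² = 2 b² + a² - 2 a b (cos θ + sin θ)`, with `a = r x`, `b = r y`. If for one of the eight
   pairs of positions `(σ, τ) ≠ (0, 0)` each of these chords has `|D - O|²` excluded for `σ` or
   `|E - O|²` excluded for `τ`, then `C` contains the vertices of a square. For `σ = τ = 1` this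
   means that `|D - O| ≥ M` or `|E - O| ≥ M`, for `σ = τ = -1` that `|D - O| ≤ m` or `|E - O| ≤ m`, and
   for `σ = 0`, `τ = 1` that `|D - O| < m` or `|D - O| > M` or `|E - O| ≥ M`. -/
theorem result (c : ℝ → ℂ) (hc : Continuous c) (hper : ∀ t, c (t + 1) = c t)
    (hinj : Set.InjOn c (Set.Ico 0 1)) :
    (∀ G : ℝ × ℝ → ℝ, Continuous G → (∀ x y, G (x + 1, y + 1) = G (x, y)) →
      (∀ x, G (x, x) < 0) → (∀ x, 0 < G (x, x + 1)) →
      (∀ x y, x < y → y < x + 1 → G (x, y) = 0 →
        c x + I * (c y - c x) ∉ interior (convexHull ℝ (Set.range c)) ∨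
        c y + I * (c y - c x) ∉ interior (convexHull ℝ (Set.range c))) → HasSquare c) ∧
    (∀ Λ : ℝ, (∀ s t, ‖c s - c t‖ ≤ Λ * |s - t|) →
      (∀ G : ℝ × ℝ → ℝ, Continuous G → (∀ x y, G (x + 1, y + 1) = G (x, y)) →
        (∀ x, G (x, x) < 0) → (∀ x, 0 < G (x, x + 1)) →
        (∀ x y, x < y → y < x + 1 → G (x, y) = 0 → Λ / 4 ≤ ‖c y - c x‖) → HasSquare c) ∧
      (∀ a : ℝ, 0 < a → a < 1 → (∀ t, Λ / 4 ≤ ‖c (t + a) - c t‖) → HasSquare c)) ∧
    ((∀ x y, x < y → y < x + 1 →
      Metric.diam (c '' Set.Icc x y) = Metric.diam (c '' Set.Icc y (x + 1)) →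
      Metric.diam (c '' Set.Icc x y) ≤ √2 * ‖c y - c x‖) → HasSquare c) ∧
    (∀ (O : ℂ) (r φ : ℝ → ℝ) (m M : ℝ) (Θ : ℝ → ℝ → ℝ) (σ τ : SignType), Continuous φ →
      (∀ t, φ (t + 1) = φ t + 2 * Real.pi) →
      (∀ t, 0 < r t ∧ c t = O + r t * exp (φ t * I)) → 0 ≤ m → (∀ t, m ≤ r t ∧ r t ≤ M) →
      (Continuous fun p : ℝ × ℝ => Θ p.1 p.2) → (∀ x y, Θ (x + 1) (y + 1) = Θ x y) →
      (∀ x, 0 < Θ x x) → (∀ x, Θ x (x + 1) < 2 * Real.pi) → (σ ≠ 0 ∨ τ ≠ 0) →
      (∀ x y, x < y → y < x + 1 → φ y = φ x + Θ x y →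
        Excluded m M σ (2 * r x ^ 2 + r y ^ 2 -
          2 * r x * r y * (Real.cos (Θ x y) + Real.sin (Θ x y))) ∨
        Excluded m M τ (2 * r y ^ 2 + r x ^ 2 -
          2 * r y * r x * (Real.cos (Θ x y) + Real.sin (Θ x y)))) → HasSquare c) := by
  have L : Pool.Agent.H763R2.An.Loop c := ⟨hc, hper⟩
  have J := Pool.Agent.H765R3.Peg.inj_of L hinj
  have nn : ∀ {c : ℝ → ℂ}, ¬ Pool.Agent.H763R2.Dm.NoSq (Set.range c) → HasSquare c :=
    fun h => not_not.1 h
  have len : ∀ Λ : ℝ, (∀ s t, ‖c s - c t‖ ≤ Λ * |s - t|) →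
      ∀ G : ℝ × ℝ → ℝ, Continuous G → (∀ x y, G (x + 1, y + 1) = G (x, y)) →
        (∀ x, G (x, x) < 0) → (∀ x, 0 < G (x, x + 1)) →
        (∀ x y, x < y → y < x + 1 → G (x, y) = 0 → Λ / 4 ≤ ‖c y - c x‖) → HasSquare c := by
    intro Λ hΛ G hG hGp h0 h1 H
    refine nn fun nosq => ?_
    obtain ⟨x, y, hx, hy, hg, hD, hC⟩ := Pool.Agent.X331.PG.inside_pair L J nosq hG hGp h0 h1
    have h2 := Pool.Agent.X331.PG.length_bound L hΛ hx hy (J x y hx hy) hD hC
    have h3 := H x y hx hy hg
    linarith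
  refine ⟨?_, fun Λ hΛ => ⟨len Λ hΛ, ?_⟩, ?_, ?_⟩
  · intro G hG hGp h0 h1 H
    refine nn fun nosq => ?_
    obtain ⟨x, y, hx, hy, hg, hD, hC⟩ := Pool.Agent.X331.PG.inside_pair L J nosq hG hGp h0 h1
    rcases H x y hx hy hg with h | h
    · exact h (Pool.Agent.X331.PG.mem_hull L hD)
    · exact h (Pool.Agent.X331.PG.mem_hull L hC)
  · intro a ha0 ha1 H
    refine len Λ hΛ (fun p => p.2 - p.1 - a) (by fun_prop) (fun x y => by simp only; ring)
      (fun x => by simp only; linarith) (fun x => by simp only; linarith) ?_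
    intro x y hx hy h
    simp only at h
    have e : y = x + a := by linarith
    rw [e]
    exact H x
  · intro H
    exact nn (Pool.Agent.X331.PG.diam_crit L J H)
  · intro O r φ m M Θ σ τ hφ hφ1 hpol hm hmM hΘ hΘ1 hΘ0 hΘ2 hστ H
    have L' : Pool.Agent.H763R2.An.Loop (fun t => c t - O) :=
      ⟨hc.sub continuous_const, fun t => by simp only [hper]⟩
    have hinj' : Set.InjOn (fun t => c t - O) (Set.Ico 0 1) := fun x hx y hy h =>
      hinj hx hy (by simpa using h)
    have J' := Pool.Agent.H765R3.Peg.inj_of L' hinj'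
    have key : ¬ Pool.Agent.H763R2.Dm.NoSq (Set.range fun t => c t - O) :=
      Pool.Agent.X331.PG.angle_crit L' J' hφ hφ1 (fun t => (hpol t).1)
        (fun t => by rw [(hpol t).2]; ring) hm (fun t => (hmM t).1) (fun t => (hmM t).2) Θ hΘ hΘ1
        hΘ0 hΘ2 σ τ hστ H
    obtain ⟨z, w, hw, ⟨t1, h1⟩, ⟨t2, h2⟩, ⟨t3, h3⟩, ⟨t4, h4⟩⟩ := nn key
    simp only at h1 h2 h3 h4
    refine ⟨z + O, w, hw, ⟨t1, ?_⟩, ⟨t2, ?_⟩, ⟨t3, ?_⟩, ⟨t4, ?_⟩⟩
    · linear_combination h1
    · linear_combination h2
    · linear_combination h3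
    · linear_combination h4

end Pool.Agent.Results.MP_5a3ebe_gt.ChordFamilies
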