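import Pool.Agent.TH829.Peg.Ray
import Pool.Agent.H765R3.Peg.Angle
import Pool.Agent.H765R3.Peg.Conv

/-! Inscribed squares in Jordan curves around a point: a curve without inscribed square has, seen
from every point that it surrounds, four points at four consecutive directions of 45 degrees whose
distances satisfy the reversed inequalities, and inscribed isosceles right triangles whose legs are
both seen under 45 degrees. No regularity. -/

set_option autoImplicit false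

namespace Pool.Agent.Results.MP_5a3ebe_gt.DualDirections

/-- The point with the signed distance `ρ` from `O` in the direction `δ` is on the curve. -/
def On (c : ℝ → ℂ) (O : ℂ) (δ ρ : ℝ) : Prop :=
  O + ρ * Complex.exp ((δ : ℝ) * Complex.I) ∈ Set.range c

open Pool.Agent Pool.Agent.H763R2 Pool.Agent.H763R2.An Pool.Agent.H765R3.Peg Complex Set in
/-- chords seen from `0` under 45 degrees, in the direction `β` of the pair of signed distances -/
theorem aux {c : ℝ → ℂ} (L : Loop c) (J : Inj c) (nosq : H763R2.Dm.NoSq (range c)) {φ : ℝ → ℝ}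
    (hφ : Continuous φ) (hφ1 : ∀ t, φ (t + 1) = φ t + 2 * Real.pi) (h0 : ∀ t, c t ≠ 0)
    (hpol : ∀ t, c t = ‖c t‖ * exp (φ t * I)) (β : ℝ) :
    ∃ α a b τ : ℝ, 0 < a ∧ 0 < b ∧ 0 < τ ∧
      (a : ℂ) * exp (((α : ℝ) : ℂ) * I) ∈ range c ∧
      (b : ℂ) * exp (((α + Real.pi / 4 : ℝ) : ℂ) * I) ∈ range c ∧
      mgc c (((√2 * a - b : ℝ) : ℂ) * exp (((α - Real.pi / 4 : ℝ) : ℂ) * I)) = τ * Real.cos β ∧
      mgc c (((√2 * b - a : ℝ) : ℂ) * exp (((α + Real.pi / 2 : ℝ) : ℂ) * I)) = τ * Real.sin β := by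
  have hπ := Real.pi_pos
  obtain ⟨x, y, τ, hx, hy, hG, hτ, e5, e6⟩ := TH829.Peg.crossing_ray L J nosq
    (G := fun p => φ p.2 - φ p.1 - Real.pi / 4) (by fun_prop)
    (fun x y => by simp only [hφ1]; ring)
    (fun x => by simp only; linarith) (fun x => by simp only [hφ1]; linarith) β
  have hxy : φ y = φ x + Real.pi / 4 := by simp only at hG; linarith
  have s2 := sqrt_mul_half
  set α := φ x with hα
  set u := exp (((α : ℝ) : ℂ) * I) with hu
  have eA : c x = ‖c x‖ * u := hpol x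
  have e1 := exp_quarter α
  have e2 := exp_half α
  have e4 := exp_quarter' α
  rw [← hu] at e1 e2 e4
  have eB : c y = ‖c y‖ * (u * ((√2 / 2 : ℂ) * (1 + I))) := by
    rw [← e1, ← hxy]; exact hpol y
  have a0 : 0 < ‖c x‖ := norm_pos_iff.2 (h0 x)
  have b0 : 0 < ‖c y‖ := norm_pos_iff.2 (h0 y)
  set a := ‖c x‖ with ha
  set b := ‖c y‖ with hb
  have hD : DD c x y = ((√2 * a - b : ℝ) : ℂ) * exp (((α - Real.pi / 4 : ℝ) : ℂ) * I) := by
    rw [e4]
    unfold DD Sq.Dv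
    rw [eA, eB]
    push_cast
    linear_combination (-(a:ℂ) * u * (1 - I) / 2) * s2 + ((b:ℂ) * u * (√2 / 2)) * I_sq
  have hC : CC c x y = ((√2 * b - a : ℝ) : ℂ) * exp (((α + Real.pi / 2 : ℝ) : ℂ) * I) := by
    rw [e2]
    unfold CC Sq.Cv
    rw [eA, eB]
    push_cast
    linear_combination ((b:ℂ) * u * (√2 / 2)) * I_sq
  rw [hD] at e5
  rw [hC] at e6
  exact ⟨α, a, b, τ, a0, b0, hτ, ⟨x, eA⟩, ⟨y, by rw [e1]; exact eB⟩, e5, e6⟩

open Pool.Agent Pool.Agent.H763R2 Pool.Agent.H763R2.An Pool.Agent.H765R3.Peg Complex Set in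
/-- a point strictly outside is separated from the centre by a point strictly between -/
theorem out {c : ℝ → ℂ} (L : Loop c) {φ : ℝ → ℝ}
    (hφ : Continuous φ) (hφ1 : ∀ t, φ (t + 1) = φ t + 2 * Real.pi) (h0 : ∀ t, c t ≠ 0)
    (hpol : ∀ t, c t = ‖c t‖ * exp (φ t * I)) {w δ : ℝ}
    (hz : mgc c ((w : ℂ) * exp ((δ : ℂ) * I)) < 0) :
    ∃ s : ℝ, 0 < s ∧ s < 1 ∧ ((s * w : ℝ) : ℂ) * exp ((δ : ℂ) * I) ∈ range c := by
  obtain ⟨s, hs0, hs1, hs⟩ := seg_out L hφ hφ1 h0 hpol hz.le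
  have e : (s : ℂ) * ((w : ℂ) * exp ((δ : ℂ) * I)) = ((s * w : ℝ) : ℂ) * exp ((δ : ℂ) * I) := by
    push_cast; ring
  rw [e] at hs
  refine ⟨s, hs0, lt_of_le_of_ne hs1 ?_, hs⟩
  rintro rfl
  rw [one_mul] at hs
  have := ((mgc_sg L).zero L).2 hs
  linarith

open Pool.Agent Pool.Agent.H763R2 Pool.Agent.H763R2.An Pool.Agent.H765R3.Peg Complex Set in
/-- a point strictly inside is in front of a point of the curve -/
theorem ins {c : ℝ → ℂ} (L : Loop c) {w δ : ℝ}
    (hz : 0 < mgc c ((w : ℂ) * exp ((δ : ℂ) * I))) :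
    ∃ p : ℝ, w < p ∧ (p : ℂ) * exp ((δ : ℂ) * I) ∈ range c := by
  obtain ⟨s, hs, t, ht⟩ := ray L (z := (w : ℂ) * exp ((δ : ℂ) * I)) (exp_ne_zero _) hz.le
  refine ⟨w + s, ?_, t, by rw [ht]; push_cast; ring⟩
  rcases hs.lt_or_eq with h | h
  · linarith
  · exfalso
    have h1 : (w : ℂ) * exp ((δ : ℂ) * I) ∈ range c := ⟨t, by rw [ht, ← h]; simp⟩
    have := ((mgc_sg L).zero L).2 h1
    linarith

/-- Let `C` be a Jordan curve parametrised by `c : ℝ → ℂ` of period `1` and let `O` be a point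
around which `C` winds once: `c t = O + r t * exp (i φ t)` with `r t > 0` and a continuous angle
`φ` with `φ (t + 1) = φ t + 2 π`. Suppose that `C` does not contain the four vertices of a square.
Below there is always an angle `α`, a point `A` of `C` in the direction `α` at distance `a > 0` from
`O`, a point `B` of `C` in the direction `α + 45°` at distance `b > 0`, and two points of `C` on the
lines through `O` with the directions `α - 45°` and `α + 90°`, at the signed distances `p` and `q`.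

1. This is possible with `p = s (√2 a - b)`, `q = t (√2 b - a)`, `0 < s < 1`, `0 < t < 1`; if `p` and
   `q` are positive, then `p + b < √2 a` and `a + q < √2 b`.
2. It is possible with `q = √2 b - a` exactly and `p = s (√2 a - b)`, `0 < s < 1`, and
3. with `q = √2 b - a` exactly and `p > √2 a - b`.
4. It is possible with `p = √2 a - b` exactly and `q = t (√2 b - a)`, `0 < t < 1`, and
5. with `p = √2 a - b` exactly and `q > √2 b - a`.

In 2 and 3 the points of `C` in the directions `α`, `α + 45°`, `α + 90°` are the vertices of an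
isosceles right triangle with the right angle at `B`. -/
theorem result (c : ℝ → ℂ) (hc : Continuous c) (hper : ∀ t, c (t + 1) = c t)
    (hinj : Set.InjOn c (Set.Ico 0 1)) (O : ℂ) (r φ : ℝ → ℝ) (hφ : Continuous φ)
    (hφ1 : ∀ t, φ (t + 1) = φ t + 2 * Real.pi)
    (hpol : ∀ t, 0 < r t ∧ c t = O + r t * Complex.exp (φ t * Complex.I))
    (hno : ¬ ∃ z w : ℂ, w ≠ 0 ∧ z ∈ Set.range c ∧ z + w ∈ Set.range c ∧
      z + w + Complex.I * w ∈ Set.range c ∧ z + Complex.I * w ∈ Set.range c) :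
    (∃ α a b s t : ℝ, 0 < a ∧ 0 < b ∧ 0 < s ∧ s < 1 ∧ 0 < t ∧ t < 1 ∧
      On c O (α - Real.pi / 4) (s * (√2 * a - b)) ∧ On c O α a ∧ On c O (α + Real.pi / 4) b ∧
      On c O (α + Real.pi / 2) (t * (√2 * b - a))) ∧
    (∃ α a b s : ℝ, 0 < a ∧ 0 < b ∧ 0 < s ∧ s < 1 ∧
      On c O (α - Real.pi / 4) (s * (√2 * a - b)) ∧ On c O α a ∧ On c O (α + Real.pi / 4) b ∧
      On c O (α + Real.pi / 2) (√2 * b - a)) ∧
    (∃ α a b p : ℝ, 0 < a ∧ 0 < b ∧ √2 * a - b < p ∧
      On c O (α - Real.pi / 4) p ∧ On c O α a ∧ On c O (α + Real.pi / 4) b ∧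
      On c O (α + Real.pi / 2) (√2 * b - a)) ∧
    (∃ α a b t : ℝ, 0 < a ∧ 0 < b ∧ 0 < t ∧ t < 1 ∧
      On c O (α - Real.pi / 4) (√2 * a - b) ∧ On c O α a ∧ On c O (α + Real.pi / 4) b ∧
      On c O (α + Real.pi / 2) (t * (√2 * b - a))) ∧
    (∃ α a b q : ℝ, 0 < a ∧ 0 < b ∧ √2 * b - a < q ∧
      On c O (α - Real.pi / 4) (√2 * a - b) ∧ On c O α a ∧ On c O (α + Real.pi / 4) b ∧
      On c O (α + Real.pi / 2) q) := by
  set d : ℝ → ℂ := fun t => c t - O with hd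
  have L : H763R2.An.Loop d := ⟨hc.sub continuous_const, fun t => by simp only [hd, hper]⟩
  have hinj' : Set.InjOn d (Set.Ico 0 1) := fun x hx y hy h => hinj hx hy (by
    simpa [hd] using h)
  have J := H765R3.Peg.inj_of L hinj'
  have mem : ∀ z, z ∈ Set.range d ↔ O + z ∈ Set.range c := fun z => by
    constructor
    · rintro ⟨t, ht⟩
      exact ⟨t, by rw [← ht, hd]; ring⟩
    · rintro ⟨t, ht⟩
      exact ⟨t, by simp only [hd, ht]; ring⟩
  have hno' : ¬ ∃ z w : ℂ, w ≠ 0 ∧ z ∈ Set.range d ∧ z + w ∈ Set.range d ∧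
      z + w + Complex.I * w ∈ Set.range d ∧ z + Complex.I * w ∈ Set.range d := by
    rintro ⟨z, w, hw, a1, a2, a3, a4⟩
    rw [mem] at a1 a2 a3 a4
    exact hno ⟨O + z, w, hw, a1, by convert a2 using 1; ring, by convert a3 using 1; ring,
      by convert a4 using 1; ring⟩
  have nrm : ∀ t, ‖d t‖ = r t := fun t => by
    rw [hd]
    simp only [(hpol t).2, add_sub_cancel_left]
    rw [norm_mul, Complex.norm_exp_ofReal_mul_I, mul_one, Complex.norm_real, Real.norm_eq_abs,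
      abs_of_pos (hpol t).1]
  have h0 : ∀ t, d t ≠ 0 := fun t h => by
    have := nrm t
    rw [h, norm_zero] at this
    exact (hpol t).1.ne this
  have hpol' : ∀ t, d t = ‖d t‖ * Complex.exp (φ t * Complex.I) := fun t => by
    rw [nrm, hd]
    simp only [(hpol t).2, add_sub_cancel_left]
  have hmg : ∀ z, H763R2.An.mgc d z = 0 → O + z ∈ Set.range c := fun z hz =>
    (mem z).1 (((H763R2.An.mgc_sg L).zero L).1 hz)
  have hOn : ∀ δ ρ : ℝ, (ρ : ℂ) * Complex.exp ((δ : ℂ) * Complex.I) ∈ Set.range d →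
      On c O δ ρ := fun δ ρ h => (mem _).1 h
  refine ⟨?_, ?_, ?_, ?_, ?_⟩
  · obtain ⟨α, a, b, τ, a0, b0, τ0, mA, mB, e5, e6⟩ := aux L J hno' hφ hφ1 h0 hpol'
      (5 * Real.pi / 4)
    have hcs : Real.cos (5 * Real.pi / 4) < 0 ∧ Real.sin (5 * Real.pi / 4) < 0 := by
      have e1 : 5 * Real.pi / 4 = Real.pi / 4 + Real.pi := by ring
      rw [e1, Real.cos_add_pi, Real.sin_add_pi, Real.cos_pi_div_four, Real.sin_pi_div_four]
      constructor <;> · have : 0 < √2 := by positivity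
                        linarith
    obtain ⟨s, hs0, hs1, hs⟩ := out L hφ hφ1 h0 hpol' (w := √2 * a - b) (δ := α - Real.pi / 4)
      (by rw [e5]; exact mul_neg_of_pos_of_neg τ0 hcs.1)
    obtain ⟨t, ht0, ht1, ht⟩ := out L hφ hφ1 h0 hpol' (w := √2 * b - a) (δ := α + Real.pi / 2)
      (by rw [e6]; exact mul_neg_of_pos_of_neg τ0 hcs.2)
    exact ⟨α, a, b, s, t, a0, b0, hs0, hs1, ht0, ht1, hOn _ _ hs, hOn _ _ mA, hOn _ _ mB,
      hOn _ _ ht⟩
  · obtain ⟨α, a, b, τ, a0, b0, τ0, mA, mB, e5, e6⟩ := aux L J hno' hφ hφ1 h0 hpol' Real.pi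
    rw [Real.cos_pi] at e5
    rw [Real.sin_pi, mul_zero] at e6
    obtain ⟨s, hs0, hs1, hs⟩ := out L hφ hφ1 h0 hpol' (w := √2 * a - b) (δ := α - Real.pi / 4)
      (by rw [e5]; linarith)
    exact ⟨α, a, b, s, a0, b0, hs0, hs1, hOn _ _ hs, hOn _ _ mA, hOn _ _ mB, hmg _ e6⟩
  · obtain ⟨α, a, b, τ, a0, b0, τ0, mA, mB, e5, e6⟩ := aux L J hno' hφ hφ1 h0 hpol' 0
    rw [Real.cos_zero] at e5
    rw [Real.sin_zero, mul_zero] at e6
    obtain ⟨p, hp, hp'⟩ := ins L (w := √2 * a - b) (δ := α - Real.pi / 4)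
      (by rw [e5]; linarith)
    exact ⟨α, a, b, p, a0, b0, hp, hOn _ _ hp', hOn _ _ mA, hOn _ _ mB, hmg _ e6⟩
  · obtain ⟨α, a, b, τ, a0, b0, τ0, mA, mB, e5, e6⟩ := aux L J hno' hφ hφ1 h0 hpol'
      (Real.pi / 2 + Real.pi)
    rw [Real.cos_add_pi, Real.cos_pi_div_two, neg_zero, mul_zero] at e5
    rw [Real.sin_add_pi, Real.sin_pi_div_two] at e6
    obtain ⟨t, ht0, ht1, ht⟩ := out L hφ hφ1 h0 hpol' (w := √2 * b - a) (δ := α + Real.pi / 2)
      (by rw [e6]; linarith)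
    exact ⟨α, a, b, t, a0, b0, ht0, ht1, hmg _ e5, hOn _ _ mA, hOn _ _ mB, hOn _ _ ht⟩
  · obtain ⟨α, a, b, τ, a0, b0, τ0, mA, mB, e5, e6⟩ := aux L J hno' hφ hφ1 h0 hpol'
      (Real.pi / 2)
    rw [Real.cos_pi_div_two, mul_zero] at e5
    rw [Real.sin_pi_div_two] at e6
    obtain ⟨q, hq, hq'⟩ := ins L (w := √2 * b - a) (δ := α + Real.pi / 2)
      (by rw [e6]; linarith)
    exact ⟨α, a, b, q, a0, b0, hq, hmg _ e5, hOn _ _ mA, hOn _ _ mB, hOn _ _ hq'⟩

end Pool.Agent.Results.MP_5a3ebe_gt.DualDirections
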