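import Pool.Agent.X150.TG.Tips2
import Pool.Agent.X150.TG.Steep

/-! Inscribed squares in the Jordan curves formed by the graphs of two arbitrary continuous functions
`g < f` on `[0, 1]` with common end values. Nothing is assumed away from the two ends; at each of the
two ends one of six mild conditions is assumed, for instance that one of the two functions is
semiconcave or semiconvex near that end (the other one being arbitrary). -/

set_option autoImplicit false

open Set Topology Filter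

namespace Pool.Agent.Results.MP_5a3ebe_gt.TwoGraphs

/-- The closed curve formed by the graphs of `f` and `g` over `[0, 1]`. -/
def curve (f g : ℝ → ℝ) : Set ℂ := {z | z.re ∈ Icc (0:ℝ) 1 ∧ (z.im = f z.re ∨ z.im = g z.re)}

/-- All chords of the graph of `h` over `[0, δ]`, directed to the right, make an angle of at most
45 degrees with the unit vector `(c, σ)`: for such a chord with components `(u, v)` one has
`|c v - σ u| ≤ c u + σ v`. -/
def Sector (h : ℝ → ℝ) (δ c σ : ℝ) : Prop :=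
  ∀ x x', 0 ≤ x → x < x' → x' ≤ δ →
    |c * (h x' - h x) - σ * (x' - x)| ≤ c * (x' - x) + σ * (h x' - h x)

/-- `h` is semiconcave or semiconvex on `[0, δ]` with constant `M`: `h - M x ^ 2` is concave or
`h + M x ^ 2` is convex. For `M = 0`: `h` is concave or convex. The slope of `h` at `0` may be
infinite. -/
def Semi (h : ℝ → ℝ) (δ M : ℝ) : Prop :=
  ConcaveOn ℝ (Icc 0 δ) (fun x => h x - M * x ^ 2) ∨
    ConvexOn ℝ (Icc 0 δ) (fun x => h x + M * x ^ 2)

/-- The condition at the left end, for `f` above `g` with `f 0 = g 0`. -/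
def TameEnd (f g : ℝ → ℝ) : Prop :=
  -- one of the two functions is semiconcave or semiconvex near the end, the other is arbitrary
  (∃ δ M : ℝ, 0 < δ ∧ δ < 1 ∧ 0 ≤ M ∧ (Semi f δ M ∨ Semi g δ M)) ∨
  -- near the end all chords of both graphs have directions in one closed right-angled sector
  (∃ δ c σ : ℝ, 0 < δ ∧ δ < 1 ∧ c ^ 2 + σ ^ 2 = 1 ∧ Sector f δ c σ ∧ Sector g δ c σ) ∨
  -- `f` and `g` have different one-sided derivatives, possibly infinite, at the end
  (∃ a b : EReal, a ≠ b ∧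
    Tendsto (fun x => (((f x - f 0) / x : ℝ) : EReal)) (𝓝[>] 0) (𝓝 a) ∧
    Tendsto (fun x => (((g x - g 0) / x : ℝ) : EReal)) (𝓝[>] 0) (𝓝 b)) ∨
  -- the chords of `g` have slope at most `κ`, and `f` is above the line of slope `κ` somewhere
  -- arbitrarily near the end
  (∃ δ κ : ℝ, 0 < δ ∧ δ < 1 ∧
    (∀ x x', 0 ≤ x → x ≤ x' → x' ≤ δ → g x' - g x ≤ κ * (x' - x)) ∧
    0 < δ + κ * (g δ - g 0) ∧ ∀ ε > 0, ∃ x, 0 < x ∧ x < ε ∧ κ * x < f x - f 0) ∨
  -- the chords of `f` have slope at least `κ`, and `g` is below the line of slope `κ` somewhere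
  -- arbitrarily near the end
  (∃ δ κ : ℝ, 0 < δ ∧ δ < 1 ∧
    (∀ x x', 0 ≤ x → x ≤ x' → x' ≤ δ → κ * (x' - x) ≤ f x' - f x) ∧
    0 < δ + κ * (f δ - f 0) ∧ ∀ ε > 0, ∃ x, 0 < x ∧ x < ε ∧ g x - g 0 < κ * x) ∨
  -- `f` has its maximum over `[0, c]` at `c`, `g` has its minimum over `[0, c']` at `c'`, and for `x`
  -- between `c` and `c'` the two left vertices of the square on the left of the vertical chord at
  -- `x` are not both strictly between the graphs
  (∃ c c' : ℝ, 0 < c ∧ c < 1 ∧ 0 < c' ∧ c' < 1 ∧ (∀ x, 0 ≤ x → x ≤ c → f x ≤ f c) ∧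
    (∀ x, 0 ≤ x → x ≤ c' → g c' ≤ g x) ∧
    ∀ x, min c c' ≤ x → x ≤ max c c' →
      x ≤ f x - g x ∨ g x ≤ g (x - (f x - g x)) ∨ f (x - (f x - g x)) ≤ f x)

open Pool.Agent.X150.TG

/-- extension by constants -/
def ext (f : ℝ → ℝ) (x : ℝ) : ℝ := f (max 0 (min x 1))

theorem ext_eq {f : ℝ → ℝ} {x : ℝ} (h0 : 0 ≤ x) (h1 : x ≤ 1) : ext f x = f x := by
  unfold ext
  rw [min_eq_left h1, max_eq_right h0]

theorem ext_cont {f : ℝ → ℝ} (hf : ContinuousOn f (Icc 0 1)) : Continuous (ext f) := by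
  unfold ext
  exact hf.comp_continuous (by fun_prop) (fun x => ⟨le_max_left _ _, max_le zero_le_one
    (min_le_right _ _)⟩)

theorem tame_tip {f g F G : ℝ → ℝ} (T : Two F G) (hF : ∀ x, 0 ≤ x → x ≤ 1 → F x = f x)
    (hG : ∀ x, 0 ≤ x → x ≤ 1 → G x = g x) (h : TameEnd f g) : Tip F G := by
  have F0 := hF 0 le_rfl zero_le_one
  have G0 := hG 0 le_rfl zero_le_one
  rcases h with ⟨δ, M, h0, h1, M0, hS⟩ | ⟨δ, c, σ, h0, h1, hcs, Qf, Qg⟩ | ⟨a, b, hab, ha, hb⟩ |
    ⟨δ, κ, h0, h1, h2, h3, h4⟩ | ⟨δ, κ, h0, h1, h2, h3, h4⟩ |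
    ⟨c, c', c0, c1, d0, d1, hf, hg, hd⟩
  · refine tip_semi (M := M) T h0 M0 ?_
    rcases hS with (h | h) | (h | h)
    · exact Or.inl (h.congr fun x hx => by rw [hF x hx.1 (hx.2.trans h1.le)])
    · exact Or.inr (Or.inl (h.congr fun x hx => by rw [hF x hx.1 (hx.2.trans h1.le)]))
    · exact Or.inr (Or.inr (Or.inl (h.congr fun x hx => by rw [hG x hx.1 (hx.2.trans h1.le)])))
    · exact Or.inr (Or.inr (Or.inr (h.congr fun x hx => by rw [hG x hx.1 (hx.2.trans h1.le)])))
  · refine tip_quad T h0 h1 hcs ?_ ?_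
    · intro x x' a b d
      rw [hF x a (by linarith), hF x' (by linarith) (by linarith)]
      exact Qf x x' a b d
    · intro x x' a b d
      rw [hG x a (by linarith), hG x' (by linarith) (by linarith)]
      exact Qg x x' a b d
  · refine tip_corner T hab (ha.congr' ?_) (hb.congr' ?_)
    · filter_upwards [Ioo_mem_nhdsGT (show (0:ℝ) < 1 by norm_num)] with x hx
      rw [F0, hF x hx.1.le hx.2.le]
    · filter_upwards [Ioo_mem_nhdsGT (show (0:ℝ) < 1 by norm_num)] with x hx
      rw [G0, hG x hx.1.le hx.2.le]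
  · refine tip_one T (κ := κ) h0 h1 ?_ ?_ ?_
    · intro x x' a b d
      rw [hG x a (by linarith), hG x' (by linarith) (by linarith)]
      exact h2 x x' a b d
    · rw [hG δ h0.le h1.le, G0]; exact h3
    · intro ε hε
      obtain ⟨x, x0, x1, hx⟩ := h4 (min ε 1) (by positivity)
      refine ⟨x, x0, x1.trans_le (min_le_left _ _), ?_⟩
      rw [hF x x0.le (x1.le.trans (min_le_right _ _)), F0]; exact hx
  · refine tip_one' T (κ := κ) h0 h1 ?_ ?_ ?_
    · intro x x' a b d
      rw [hF x a (by linarith), hF x' (by linarith) (by linarith)]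
      exact h2 x x' a b d
    · rw [hF δ h0.le h1.le, F0]; exact h3
    · intro ε hε
      obtain ⟨x, x0, x1, hx⟩ := h4 (min ε 1) (by positivity)
      refine ⟨x, x0, x1.trans_le (min_le_left _ _), ?_⟩
      rw [hG x x0.le (x1.le.trans (min_le_right _ _)), G0]; exact hx
  · refine tip_rec c0 c1 d0 d1 ?_ ?_ ?_
    · intro x a b
      rw [hF x a (by linarith), hF c c0.le c1.le]
      exact hf x a b
    · intro x a b
      rw [hG x a (by linarith), hG c' d0.le d1.le]
      exact hg x a b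
    · rintro x hx1 hx2 ⟨⟨u1, u2, u3, u4⟩, ⟨v1, v2, v3, v4⟩⟩
      have x0 : 0 ≤ x := le_trans (le_min c0.le d0.le) hx1
      have x1 : x ≤ 1 := hx2.trans (max_le c1.le d1.le)
      have e1 := hF x x0 x1
      have e2 := hG x x0 x1
      rw [e1, e2] at u1 u2 u3 v4
      rw [hG _ u1.le u2.le] at u3
      rw [hF _ u1.le u2.le] at v4
      rcases hd x hx1 hx2 with h | h | h <;> linarith

open Pool.Agent.H763R2.Dm (NoSq) in
/-- Inscribed squares in unions of two graphs. -/
theorem result (f g : ℝ → ℝ) (hf : ContinuousOn f (Icc 0 1)) (hg : ContinuousOn g (Icc 0 1))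
    (h0 : f 0 = g 0) (h1 : f 1 = g 1) (hlt : ∀ x, 0 < x → x < 1 → g x < f x)
    (left : TameEnd f g) (right : TameEnd (fun x => f (1 - x)) (fun x => g (1 - x))) :
    ∃ z w : ℂ, w ≠ 0 ∧ z ∈ curve f g ∧ z + w ∈ curve f g ∧
      z + w + Complex.I * w ∈ curve f g ∧ z + Complex.I * w ∈ curve f g := by
  have T : Two (ext f) (ext g) :=
    ⟨ext_cont hf, ext_cont hg, by rw [ext_eq le_rfl zero_le_one, ext_eq le_rfl zero_le_one, h0],
      by rw [ext_eq zero_le_one le_rfl, ext_eq zero_le_one le_rfl, h1], fun x a b => by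
        rw [ext_eq a.le b.le, ext_eq a.le b.le]; exact hlt x a b⟩
  have t1 : Tip (ext f) (ext g) :=
    tame_tip T (fun x a b => ext_eq a b) (fun x a b => ext_eq a b) left
  have t2 : Tip (fun x => ext f (1 - x)) (fun x => ext g (1 - x)) :=
    tame_tip T.mir (fun x a b => ext_eq (by linarith) (by linarith))
      (fun x a b => ext_eq (by linarith) (by linarith)) right
  have key := tips T t1 t2
  unfold NoSq at key
  push Not at key
  have mem : ∀ z ∈ range (crv (ext f) (ext g)), z ∈ curve f g := by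
    rintro _ ⟨t, rfl⟩
    obtain ⟨a, b, c⟩ := crv_mem T t
    refine ⟨⟨a, b⟩, ?_⟩
    rw [ext_eq a b, ext_eq a b] at c
    exact c
  obtain ⟨z, w, hw, m1, m2, m3, m4⟩ := key
  exact ⟨z, w, hw, mem _ m1, mem _ m2, mem _ m3, mem _ m4⟩

end Pool.Agent.Results.MP_5a3ebe_gt.TwoGraphs
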