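import Pool.Agent.X163.Peg.Pocket

/-! Inscribed squares in Jordan curves with wild arcs: odd families of Jordan curves whose arcs are
locally monotone, or similar or congruent in pairs, or arbitrary with a free family of chords; Jordan
curves with wild pockets. -/

set_option autoImplicit false

namespace Pool.Agent.Results.MP_5a3ebe_gt.WildArcs

/-- Near the parameter `s` all chords of the curve lie in one open quarter plane: for a suitable `w`
the product of `w` with `c y - c x` has `|Im| < Re` for all `x < y` close to `s`. -/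
def Tame (c : ℝ → ℂ) (s : ℝ) : Prop := ∃ ρ > 0, ∃ w : ℂ, ∀ x y : ℝ, |x - s| < ρ → |y - s| < ρ →
  x < y → |(w * (c y - c x)).im| < (w * (c y - c x)).re

/-- The curve is locally monotone (in the sense of Stromquist) at the parameter `s`: near `s` all
chords of the curve lie in one open half plane. -/
def LocMono (c : ℝ → ℂ) (s : ℝ) : Prop := ∃ ρ > 0, ∃ w : ℂ, ∀ x y : ℝ, |x - s| < ρ → |y - s| < ρ →
  x < y → 0 < (w * (c y - c x)).re

/-- The `i`-th arc of a curve subdivided at the parameters `t 0 < t 1 < ...`. -/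
def arc (c : ℝ → ℂ) (t : ℕ → ℝ) (i : ℕ) : Set ℂ := c '' Set.Icc (t i) (t (i + 1))

/-- A similarity of the plane, of either orientation. -/
def Similarity (f : ℂ → ℂ) : Prop := ∃ u v : ℂ, u ≠ 0 ∧
  (f = (fun z => u * z + v) ∨ f = fun z => u * (starRingEnd ℂ) z + v)

/-- The arc over `[p, p']` of the curve `c`, prolonged at both ends, is mapped onto the arc over
`[q, q']` of the curve `c'`, prolonged at both ends, by a proper congruence of the plane that takes
`c p` to `c' q` and `c p'` to `c' q'`. -/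
def Moved (c c' : ℝ → ℂ) (p p' q q' : ℝ) : Prop := ∃ a b a' b' : ℝ, a < p ∧ p' < b ∧ b < a + 1 ∧
  a' < q ∧ q' < b' ∧ b' < a' + 1 ∧ ∃ u v : ℂ, ‖u‖ = 1 ∧
    (fun z => u * z + v) '' (c '' Set.Icc a b) = c' '' Set.Icc a' b' ∧ u * c p + v = c' q ∧
    u * c p' + v = c' q'

/-- The arc over `[p, p']` of the curve `c`, prolonged at both ends, is mapped onto the arc over
`[q, q']` of the curve `c'`, prolonged at both ends, by an opposite congruence of the plane that
takes `c p` to `c' q'` and `c p'` to `c' q`. -/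
def Reflected (c c' : ℝ → ℂ) (p p' q q' : ℝ) : Prop := ∃ a b a' b' : ℝ, a < p ∧ p' < b ∧
  b < a + 1 ∧ a' < q ∧ q' < b' ∧ b' < a' + 1 ∧ ∃ u v : ℂ, ‖u‖ = 1 ∧
    (fun z => u * (starRingEnd ℂ) z + v) '' (c '' Set.Icc a b) = c' '' Set.Icc a' b' ∧
    u * (starRingEnd ℂ) (c p) + v = c' q' ∧ u * (starRingEnd ℂ) (c p') + v = c' q

/-- `z` lies inside `C`: it is not on `C`, and its component of the complement of `C` is bounded. -/
def Inside (C : Set ℂ) (z : ℂ) : Prop := z ∉ C ∧ Bornology.IsBounded (connectedComponentIn Cᶜ z)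

/-- `z` lies outside `C`: it is not on `C`, and its component of the complement of `C` is not
bounded. -/
def Outside (C : Set ℂ) (z : ℂ) : Prop := z ∉ C ∧ ¬ Bornology.IsBounded (connectedComponentIn Cᶜ z)

/-- The arc over `[s, t]` of the curve `c` is free. On the chord from `A = c x` to `B = c y`,
`x < y < x + 1`, we take the square `A, B, E, D` with `D = A + ε (B - A)` and `E = B + ε (B - A)`
on its left (`ε = i`) or on its right (`ε = -i`). For one of these two sides, for one of the four
position patterns (`D` inside or outside `C`, `E` inside or outside `C`) and for one ratio `q > 0`,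
short chords near `c s` can be joined to short chords near `c t` by paths of chords of `C` along which
it never happens that `D` and `E` have this position and that the distance of `D` to `C` is `q` times
the distance of `E` to `C`; moreover at the first chord of the path `D` and `E` do not have this
position (no matter how far they are from `C`). -/
def Free (c : ℝ → ℂ) (s t : ℝ) : Prop := ∃ ε : ℂ, (ε = Complex.I ∨ ε = -Complex.I) ∧
  ∃ S T : Set ℂ → ℂ → Prop, (S = Inside ∨ S = Outside) ∧ (T = Inside ∨ T = Outside) ∧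
    ∃ q : ℝ, 0 < q ∧ ∀ ρ > 0, ∃ x y : ℝ → ℝ, ContinuousOn x (Set.Icc 0 1) ∧
      ContinuousOn y (Set.Icc 0 1) ∧
      |x 0 - s| < ρ ∧ |y 0 - s| < ρ ∧ |x 1 - t| < ρ ∧ |y 1 - t| < ρ ∧
      (∀ τ ∈ Set.Icc (0:ℝ) 1, x τ < y τ ∧ y τ < x τ + 1 ∧
        ¬ (S (Set.range c) (c (x τ) + ε * (c (y τ) - c (x τ))) ∧
          T (Set.range c) (c (y τ) + ε * (c (y τ) - c (x τ))) ∧
          Metric.infDist (c (x τ) + ε * (c (y τ) - c (x τ))) (Set.range c) =
            q * Metric.infDist (c (y τ) + ε * (c (y τ) - c (x τ))) (Set.range c))) ∧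
      ¬ (S (Set.range c) (c (x 0) + ε * (c (y 0) - c (x 0))) ∧
        T (Set.range c) (c (y 0) + ε * (c (y 0) - c (x 0))))

/-- One side of the arc over `[s, t]` from `P = c s` to `Q = c t` is clear: for `ε = i` or for
`ε = -i` and for no point `X` of the arc one of the two squares `P, X, X + ε (X - P), P + ε (X - P)`
and `X, Q, Q + ε (Q - X), X + ε (Q - X)` has both its last two vertices inside `C`. -/
def Clear (c : ℝ → ℂ) (s t : ℝ) : Prop := ∃ ε : ℂ, (ε = Complex.I ∨ ε = -Complex.I) ∧
  (∀ r, s < r → r ≤ t → ¬ (Inside (Set.range c) (c s + ε * (c r - c s)) ∧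
    Inside (Set.range c) (c r + ε * (c r - c s)))) ∧
  ∀ r, s ≤ r → r < t → ¬ (Inside (Set.range c) (c r + ε * (c t - c r)) ∧
    Inside (Set.range c) (c t + ε * (c t - c r)))

/-- The arc over `[s, t]` from `P = c s` to `Q = c t` is a straight pocket: the whole curve lies on
one side of the line `P Q`, and the arc lies between the perpendiculars to `P Q` at `P` and `Q`. -/
def Pocket (c : ℝ → ℂ) (s t : ℝ) : Prop := ∃ σ : ℝ, (σ = 1 ∨ σ = -1) ∧
  (∀ r, 0 ≤ σ * ((starRingEnd ℂ) (c t - c s) * (c r - c s)).im) ∧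
  ∀ r ∈ Set.Icc s t, 0 ≤ ((starRingEnd ℂ) (c t - c s) * (c r - c s)).re ∧
    0 ≤ ((starRingEnd ℂ) (c t - c s) * (c t - c r)).re

/-- The curve contains the four vertices of a square. -/
def HasSquare (c : ℝ → ℂ) : Prop := ∃ z w : ℂ, w ≠ 0 ∧ z ∈ Set.range c ∧ z + w ∈ Set.range c ∧
  z + w + Complex.I * w ∈ Set.range c ∧ z + Complex.I * w ∈ Set.range c

/-- Part 1. Let `c 0, ..., c (N - 1)` be an odd number of Jordan curves (continuous, of period `1`,
injective on `[0, 1)`), the `k`-th one cut at the parameters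
`t k 0 < t k 1 < ... < t k (n k) = t k 0 + 1`, `n k ≥ 2`. Let `σ` be an involution of the set of all
the arcs `(k, i)` of all the curves. Suppose that each arc `(k, i)` is of one of the following kinds:
(0) its ends are tame and it is free (this condition does not restrict the shape of the arc itself
and does not involve `σ`);
(1) its ends are tame and it is locally monotone at all its points;
(2) its ends and those of the arc `σ (k, i)` (of the same or of another curve) are tame and it is
mapped onto the arc `σ (k, i)` by a similarity which, in the case `σ (k, i) = (k, i)`, exchanges its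
ends;
(3) `σ (k, i) ≠ (k, i)` and it is mapped onto the arc `σ (k, i)` by a proper congruence which keeps
the directions of the curves and maps also some prolongation of the arc `(k, i)` at both ends onto
one of the arc `σ (k, i)`;
(4) it is mapped onto the arc `σ (k, i)` (possibly `σ (k, i) = (k, i)`) by an opposite congruence
which reverses the directions of the curves and maps also some prolongation of the arc `(k, i)` at
both ends onto one of the arc `σ (k, i)`.
Then at least one of the curves contains the four vertices of a square.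

Part 2. If a Jordan curve can be cut at `n ≥ 2` tame parameters into arcs each of which is locally
monotone at all its points, or has a clear side, or is a straight pocket, then it contains the four
vertices of a square. -/
theorem result :
    (∀ N : ℕ, Odd N → ∀ c : Fin N → ℝ → ℂ, (∀ k, Continuous (c k)) →
      (∀ k s, c k (s + 1) = c k s) → (∀ k, Set.InjOn (c k) (Set.Ico 0 1)) →
      ∀ n : Fin N → ℕ, (∀ k, 2 ≤ n k) → ∀ t : Fin N → ℕ → ℝ,
      (∀ k, ∀ i < n k, t k i < t k (i + 1)) → (∀ k, t k (n k) = t k 0 + 1) →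
      ∀ σ : Fin N × ℕ → Fin N × ℕ,
      (∀ k, ∀ i < n k, (σ (k, i)).2 < n (σ (k, i)).1 ∧ σ (σ (k, i)) = (k, i)) →
      (∀ k, ∀ i < n k,
        (Tame (c k) (t k i) ∧ Tame (c k) (t k (i + 1)) ∧ Free (c k) (t k i) (t k (i + 1))) ∨
        (Tame (c k) (t k i) ∧ Tame (c k) (t k (i + 1)) ∧
          ∀ s ∈ Set.Icc (t k i) (t k (i + 1)), LocMono (c k) s) ∨
        (Tame (c k) (t k i) ∧ Tame (c k) (t k (i + 1)) ∧
          Tame (c (σ (k, i)).1) (t (σ (k, i)).1 (σ (k, i)).2) ∧
          Tame (c (σ (k, i)).1) (t (σ (k, i)).1 ((σ (k, i)).2 + 1)) ∧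
          ∃ f, Similarity f ∧
            f '' arc (c k) (t k) i = arc (c (σ (k, i)).1) (t (σ (k, i)).1) (σ (k, i)).2 ∧
            (σ (k, i) = (k, i) → f (c k (t k i)) = c k (t k (i + 1)))) ∨
        (σ (k, i) ≠ (k, i) ∧ Moved (c k) (c (σ (k, i)).1) (t k i) (t k (i + 1))
          (t (σ (k, i)).1 (σ (k, i)).2) (t (σ (k, i)).1 ((σ (k, i)).2 + 1))) ∨
        Reflected (c k) (c (σ (k, i)).1) (t k i) (t k (i + 1))
          (t (σ (k, i)).1 (σ (k, i)).2) (t (σ (k, i)).1 ((σ (k, i)).2 + 1))) →
      ∃ k, HasSquare (c k)) ∧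
    (∀ c : ℝ → ℂ, Continuous c → (∀ s, c (s + 1) = c s) → Set.InjOn c (Set.Ico 0 1) →
      ∀ n : ℕ, 2 ≤ n → ∀ t : ℕ → ℝ, (∀ i < n, t i < t (i + 1)) → t n = t 0 + 1 →
      (∀ i < n, Tame c (t i)) →
      (∀ i < n, (∀ s ∈ Set.Icc (t i) (t (i + 1)), LocMono c s) ∨ Clear c (t i) (t (i + 1)) ∨
        Pocket c (t i) (t (i + 1))) →
      HasSquare c) := by
  have inj : ∀ c : ℝ → ℂ, Continuous c → (∀ s, c (s + 1) = c s) → Set.InjOn c (Set.Ico 0 1) →
      Pool.Agent.H763R2.An.Inj c := by
    intro c hc hper hinj x y hxy hy he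
    have L : Pool.Agent.H763R2.An.Loop c := ⟨hc, hper⟩
    have e1 : c (Int.fract x) = c x := by
      have := L.per_int (Int.fract x) ⌊x⌋
      rw [Int.fract_add_floor] at this
      exact this.symm
    have e2 : c (Int.fract y) = c y := by
      have := L.per_int (Int.fract y) ⌊y⌋
      rw [Int.fract_add_floor] at this
      exact this.symm
    have e3 := hinj ⟨Int.fract_nonneg x, Int.fract_lt_one x⟩
      ⟨Int.fract_nonneg y, Int.fract_lt_one y⟩ (by rw [e1, e2, he])
    obtain ⟨m, hm⟩ := Int.fract_eq_fract.1 e3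
    have h1 : (m : ℝ) < 0 := by linarith
    have h2 : (-1 : ℝ) < m := by linarith
    have h3 : m < 0 := by exact_mod_cast h1
    have h4 : -1 < m := by exact_mod_cast h2
    omega
  refine ⟨fun N hN c hc hper hinj n hn t ht ht1 σ hσ H => ?_,
    fun c hc hper hinj n hn t ht ht1 hT H => ?_⟩
  · by_contra hno
    refine Pool.Agent.X163.Peg.grand_free hN (fun k => ⟨hc k, hper k⟩)
      (fun k => inj _ (hc k) (hper k) (hinj k)) (fun k h => hno ⟨k, h⟩) hn ht ht1 hσ
      (fun k i hi => ?_)
    rcases H k i hi with ⟨h1, h2, h3⟩ | ⟨h1, h2, h3⟩ | h | h | h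
    · exact Or.inl ⟨h1, h2, Or.inr h3⟩
    · exact Or.inl ⟨h1, h2, Or.inl h3⟩
    · exact Or.inr (Or.inl h)
    · exact Or.inr (Or.inr (Or.inl h))
    · exact Or.inr (Or.inr (Or.inr h))
  · by_contra hno
    have L : Pool.Agent.H763R2.An.Loop c := ⟨hc, hper⟩
    have J := inj c hc hper hinj
    refine Pool.Agent.X163.Peg.grand_free (N := 1) (by norm_num) (c := fun _ => c) (fun _ => L)
      (fun _ => J) (fun _ h => hno h) (n := fun _ => n) (fun _ => hn) (t := fun _ => t)
      (fun _ => ht) (fun _ => ht1) (σ := id) (fun k i hi => ⟨hi, rfl⟩) (fun k i hi => ?_)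
    have h1 : Pool.Agent.Y535.PEG.Cone c (t i) := hT i hi
    have h2 : Pool.Agent.Y535.PEG.Cone c (t (i + 1)) := by
      rcases (Nat.succ_le_of_lt hi).eq_or_lt with h | h
      · have h3 : Pool.Agent.Y535.PEG.Cone c (t 0) := hT 0 (by omega)
        have h4 := h3.per L
        rw [← ht1, ← h] at h4
        exact h4
      · exact hT (i + 1) h
    have h3 := ht i hi
    have h4 : t (i + 1) < t i + 1 := Pool.Agent.Y535.PEG.ord_len hn ht ht1 hi
    refine Or.inl ⟨h1, h2, ?_⟩
    rcases H i hi with h | ⟨ε, hε, g1, g2⟩ | ⟨σ, hσ, g1, g2⟩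
    · exact Or.inl h
    · exact Or.inr (Pool.Agent.X163.Peg.lshape h3 h4 hε (Or.inl rfl) (Or.inl rfl) g1 g2)
    · exact Or.inr (Pool.Agent.X163.Peg.pocket J h3 h4 hσ g1 g2)

end Pool.Agent.Results.MP_5a3ebe_gt.WildArcs
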